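import Mathlib

set_option autoImplicit false

namespace Pool.Agent.Results.MP_94c136_al.OutNotCompact

open Equiv

/-- The topology of pointwise convergence on the group of all permutations of `ℕ`. -/
instance permTopology : TopologicalSpace (Perm ℕ) :=
  TopologicalSpace.induced (fun (g : Perm ℕ) (n : ℕ) => g n) inferInstance

/-- A closed group of permutations of `ℕ` with finitely many orbits on `ℕⁿ` for every `n`. -/
def IsOligomorphic (G : Subgroup (Perm ℕ)) : Prop :=
  IsClosed (G : Set (Perm ℕ)) ∧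
    ∀ n : ℕ, Finite (MulAction.orbitRel.Quotient G (Fin n → ℕ))

/-- The group of automorphisms of a topological group that are homeomorphisms. -/
def TopAut (G : Type) [Group G] [TopologicalSpace G] : Subgroup (MulAut G) where
  carrier := {α | Continuous α ∧ Continuous α.symm}
  one_mem' := ⟨continuous_id, continuous_id⟩
  mul_mem' := fun ha hb => ⟨ha.1.comp hb.1, hb.2.comp ha.2⟩
  inv_mem' := fun ha => ⟨ha.2, ha.1⟩

/-- A left coset of an open subgroup. -/
def IsOpenCoset {G : Type} [Group G] [TopologicalSpace G] (C : Set G) : Prop :=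
  ∃ (U : Subgroup G) (g : G), IsOpen (U : Set G) ∧ C = (fun u => g * u) '' (U : Set G)

/-- The topology of pointwise convergence of the action on open cosets: the sets
`{α | α(C) = D}`, for open cosets `C` and `D`, form a subbasis. -/
instance autTopology (G : Type) [Group G] [TopologicalSpace G] : TopologicalSpace (TopAut G) :=
  TopologicalSpace.generateFrom
    {W | ∃ C D : Set G, IsOpenCoset C ∧ IsOpenCoset D ∧
      W = {α : TopAut G | (fun x => (α : MulAut G) x) '' C = D}}

/-- The subgroup of inner automorphisms. -/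
def InnAut (G : Type) [Group G] [TopologicalSpace G] : Subgroup (TopAut G) :=
  (MulAut.conj : G →* MulAut G).range.subgroupOf (TopAut G)

/-- The inner automorphisms form a normal subgroup, so that the quotient below is a group. -/
instance innAut_normal (G : Type) [Group G] [TopologicalSpace G] : (InnAut G).Normal := by
  refine ⟨?_⟩
  rintro α ⟨g, hg⟩ β
  refine ⟨(β : MulAut G) g, ?_⟩
  have hg' : MulAut.conj g = (α : MulAut G) := hg
  have h1 : MulAut.conj ((β : MulAut G) g) =
      (β : MulAut G) * (α : MulAut G) * (β : MulAut G)⁻¹ := by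
    rw [← hg']
    ext x
    change (β : MulAut G) g * x * ((β : MulAut G) g)⁻¹ =
      (β : MulAut G) (g * (β : MulAut G).symm x * g⁻¹)
    rw [map_mul, map_mul, MulEquiv.apply_symm_apply, map_inv]
  exact h1

/-- The outer automorphism group, with the quotient topology. -/
abbrev OutAut (G : Type) [Group G] [TopologicalSpace G] : Type := TopAut G ⧸ InnAut G

/-! ### The generic coloring -/

/-- the finite family of finite sets coded by `x` -/
noncomputable def fam (x : ℕ) : Finset (Finset ℕ) :=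
  (Encodable.decode (α := Finset (Finset ℕ)) (Nat.unpair x).1).getD ∅

lemma exists_fam (D : Finset (Finset ℕ)) (N : ℕ) : ∃ x, N ≤ x ∧ fam x = D := by
  refine ⟨Nat.pair (Encodable.encode D) N, Nat.right_le_pair _ _, ?_⟩
  simp [fam]

/-- the coloring -/
noncomputable def col (C : Finset ℕ) : ℤˣ :=
  if h : C.Nonempty then (if C.erase (C.max' h) ∈ fam (C.max' h) then -1 else 1) else 1

lemma col_insert {x : ℕ} {B : Finset ℕ} (hB : ∀ b ∈ B, b < x) :
    col (insert x B) = if B ∈ fam x then -1 else 1 := by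
  have hne : (insert x B).Nonempty := Finset.insert_nonempty _ _
  have hmax : (insert x B).max' hne = x := by
    apply le_antisymm
    · apply Finset.max'_le
      intro y hy
      rcases Finset.mem_insert.mp hy with rfl | hy
      · exact le_rfl
      · exact (hB y hy).le
    · exact Finset.le_max' _ _ (Finset.mem_insert_self _ _)
  have hx : x ∉ B := fun h => lt_irrefl _ (hB x h)
  unfold col
  rw [dif_pos hne, hmax, Finset.erase_insert hx]

/-- the extension property -/
lemma extension (A : Finset ℕ) (φ : Finset ℕ → ℤˣ) :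
    ∃ x, 2 ≤ x ∧ (∀ a ∈ A, a < x) ∧ ∀ B, B ⊆ A → col (insert x B) = φ B := by
  obtain ⟨x, hx1, hx2⟩ := exists_fam (A.powerset.filter (fun B => φ B = -1)) (A.sup id + 2)
  have hlt : ∀ a ∈ A, a < x := by
    intro a ha
    have : a ≤ A.sup id := Finset.le_sup (f := id) ha
    omega
  refine ⟨x, by omega, hlt, fun B hB => ?_⟩
  rw [col_insert (fun b hb => hlt b (hB hb)), hx2]
  rcases Int.units_eq_one_or (φ B) with h | h
  · rw [h, if_neg]
    rw [Finset.mem_filter, h]
    rintro ⟨-, h2⟩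
    exact absurd h2 (by decide)
  · rw [h, if_pos]
    rw [Finset.mem_filter, Finset.mem_powerset]
    exact ⟨hB, h⟩

/-! ### Partial isomorphisms -/

/-- finite partial isomorphisms twisted by `ε` -/
def IsPI (ε : ℕ → ℤˣ) (f : Finset (ℕ × ℕ)) : Prop :=
  (0, 0) ∈ f ∧ (1, 1) ∈ f ∧ (∀ p ∈ f, ∀ q ∈ f, p.1 = q.1 ↔ p.2 = q.2) ∧
  ∀ S, S ⊆ f → S.Nonempty → (∀ p ∈ S, 2 ≤ p.1) →
    col (S.image Prod.snd) = ε S.card * col (S.image Prod.fst)

lemma IsPI.two_le {ε : ℕ → ℤˣ} {f : Finset (ℕ × ℕ)} (hf : IsPI ε f) {p : ℕ × ℕ} (hp : p ∈ f) :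
    2 ≤ p.1 ↔ 2 ≤ p.2 := by
  obtain ⟨h0, h1, h2, -⟩ := hf
  have a := h2 p hp _ h0
  have b := h2 p hp _ h1
  simp only at a b
  constructor
  · intro h
    have : p.2 ≠ 0 := fun h' => by have := a.mpr h'; omega
    have : p.2 ≠ 1 := fun h' => by have := b.mpr h'; omega
    omega
  · intro h
    have : p.1 ≠ 0 := fun h' => by have := a.mp h'; omega
    have : p.1 ≠ 1 := fun h' => by have := b.mp h'; omega
    omega

lemma units_mul_self (e : ℤˣ) : e * e = 1 := by
  rcases Int.units_eq_one_or e with h | h <;> rw [h] <;> decide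

lemma IsPI.swap {ε : ℕ → ℤˣ} {f : Finset (ℕ × ℕ)} (hf : IsPI ε f) :
    IsPI ε (f.image Prod.swap) := by
  have hf' := hf
  obtain ⟨h0, h1, h2, h3⟩ := hf
  refine ⟨Finset.mem_image.mpr ⟨_, h0, rfl⟩, Finset.mem_image.mpr ⟨_, h1, rfl⟩, ?_, ?_⟩
  · intro p hp q hq
    obtain ⟨p', hp', rfl⟩ := Finset.mem_image.mp hp
    obtain ⟨q', hq', rfl⟩ := Finset.mem_image.mp hq
    exact (h2 p' hp' q' hq').symm
  · intro S hS hne h
    have hSf : S.image Prod.swap ⊆ f := by
      intro p hp
      obtain ⟨q, hq, rfl⟩ := Finset.mem_image.mp hp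
      obtain ⟨r, hr, hrq⟩ := Finset.mem_image.mp (hS hq)
      rw [← hrq]; simpa using hr
    have e1 : (S.image Prod.swap).image Prod.snd = S.image Prod.fst := by
      rw [Finset.image_image]; rfl
    have e2 : (S.image Prod.swap).image Prod.fst = S.image Prod.snd := by
      rw [Finset.image_image]; rfl
    have e3 : (S.image Prod.swap).card = S.card :=
      Finset.card_image_of_injective _ Prod.swap_injective
    have h4 := h3 (S.image Prod.swap) hSf (hne.image _) (by
      intro p hp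
      have hpf := hSf hp
      rw [hf'.two_le hpf]
      obtain ⟨q, hq, rfl⟩ := Finset.mem_image.mp hp
      exact h q hq)
    rw [e1, e2, e3] at h4
    rw [h4, ← mul_assoc, units_mul_self, one_mul]

lemma IsPI.extend_left {ε : ℕ → ℤˣ} {f : Finset (ℕ × ℕ)} (hf : IsPI ε f) (a : ℕ) :
    ∃ f', IsPI ε f' ∧ f ⊆ f' ∧ ∃ p ∈ f', p.1 = a := by
  by_cases ha : ∃ p ∈ f, p.1 = a
  · exact ⟨f, hf, subset_rfl, ha⟩
  push Not at ha
  have hf' := hf
  obtain ⟨h0, h1, h2, h3⟩ := hf
  have ha2 : 2 ≤ a := by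
    have := ha _ h0
    have := ha _ h1
    simp only at *
    omega
  let pre : Finset ℕ → Finset ℕ := fun B => (f.filter (fun p => p.2 ∈ B)).image Prod.fst
  obtain ⟨x, hx2, hxA, hx⟩ := extension (f.image Prod.snd)
    (fun B => ε (B.card + 1) * col (insert a (pre B)))
  have hxf : ∀ p ∈ f, p.2 ≠ x := by
    intro p hp h
    have := hxA p.2 (Finset.mem_image.mpr ⟨p, hp, rfl⟩)
    omega
  refine ⟨insert (a, x) f, ⟨Finset.mem_insert_of_mem h0, Finset.mem_insert_of_mem h1, ?_, ?_⟩,
    Finset.subset_insert _ _, (a, x), Finset.mem_insert_self _ _, rfl⟩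
  · intro p hp q hq
    rcases Finset.mem_insert.mp hp with rfl | hp <;> rcases Finset.mem_insert.mp hq with rfl | hq
    · simp
    · have h4 := ha q hq
      have h5 := hxf q hq
      simp only
      constructor
      · intro h; exact absurd h.symm h4
      · intro h; exact absurd h.symm h5
    · have h4 := ha p hp
      have h5 := hxf p hp
      simp only
      constructor
      · intro h; exact absurd h h4
      · intro h; exact absurd h h5
    · exact h2 p hp q hq
  · intro S hS hne hS2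
    by_cases hax : (a, x) ∈ S
    · set S' := S.erase (a, x) with hS'
      have hSS : S = insert (a, x) S' := (Finset.insert_erase hax).symm
      have hS'f : S' ⊆ f := by
        intro p hp
        have hp1 := Finset.mem_erase.mp hp
        rcases Finset.mem_insert.mp (hS hp1.2) with h | h
        · exact absurd h hp1.1
        · exact h
      have hinj : Set.InjOn Prod.snd (S' : Set (ℕ × ℕ)) := by
        intro p hp q hq hpq
        exact Prod.ext ((h2 p (hS'f hp) q (hS'f hq)).mpr hpq) hpq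
      have hcard : (S'.image Prod.snd).card = S'.card := Finset.card_image_of_injOn hinj
      have hcard' : S.card = S'.card + 1 := by
        rw [hSS, Finset.card_insert_of_notMem (Finset.notMem_erase _ _)]
      have hpre : pre (S'.image Prod.snd) = S'.image Prod.fst := by
        ext y
        simp only [pre, Finset.mem_image, Finset.mem_filter]
        constructor
        · rintro ⟨p, ⟨hp, q, hq, hqp⟩, rfl⟩
          exact ⟨q, hq, (h2 q (hS'f hq) p hp).mpr hqp⟩
        · rintro ⟨p, hp, rfl⟩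
          exact ⟨p, ⟨hS'f hp, p, hp, rfl⟩, rfl⟩
      have h4 := hx (S'.image Prod.snd) (Finset.image_subset_image hS'f)
      rw [hcard, hpre] at h4
      rw [hcard', hSS, Finset.image_insert, Finset.image_insert]
      exact h4
    · apply h3 S _ hne hS2
      intro p hp
      rcases Finset.mem_insert.mp (hS hp) with h | h
      · exact absurd (h ▸ hp) hax
      · exact h

lemma IsPI.extend_right {ε : ℕ → ℤˣ} {f : Finset (ℕ × ℕ)} (hf : IsPI ε f) (b : ℕ) :
    ∃ f', IsPI ε f' ∧ f ⊆ f' ∧ ∃ p ∈ f', p.2 = b := by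
  obtain ⟨f', h1, h2, p, hp, hpb⟩ := hf.swap.extend_left b
  refine ⟨f'.image Prod.swap, h1.swap, ?_, p.swap, Finset.mem_image.mpr ⟨p, hp, rfl⟩, hpb⟩
  intro q hq
  refine Finset.mem_image.mpr ⟨q.swap, h2 (Finset.mem_image.mpr ⟨q, hq, rfl⟩), ?_⟩
  simp

/-- back and forth -/
theorem exists_perm {ε : ℕ → ℤˣ} {f : Finset (ℕ × ℕ)} (hf : IsPI ε f) :
    ∃ g : Perm ℕ, (∀ p ∈ f, g p.1 = p.2) ∧ g 0 = 0 ∧ g 1 = 1 ∧
      ∀ B : Finset ℕ, B.Nonempty → (∀ b ∈ B, 2 ≤ b) → col (B.image g) = ε B.card * col B := by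
  let P := {f : Finset (ℕ × ℕ) // IsPI ε f}
  let DD : ℕ ⊕ ℕ → Order.Cofinal P := fun s => Sum.elim
    (fun a => ⟨{f | ∃ p ∈ f.1, p.1 = a}, fun f => by
      obtain ⟨f', h1, h2, h3⟩ := f.2.extend_left a
      exact ⟨⟨f', h1⟩, h3, h2⟩⟩)
    (fun b => ⟨{f | ∃ p ∈ f.1, p.2 = b}, fun f => by
      obtain ⟨f', h1, h2, h3⟩ := f.2.extend_right b
      exact ⟨⟨f', h1⟩, h3, h2⟩⟩) s
  let I := Order.idealOfCofinals (⟨f, hf⟩ : P) DD
  have hfI : (⟨f, hf⟩ : P) ∈ I := Order.mem_idealOfCofinals _ _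
  have hL : ∀ a, ∃ b, ∃ F : P, F ∈ I ∧ (a, b) ∈ F.1 := by
    intro a
    obtain ⟨F, hF1, hF2⟩ := Order.cofinal_meets_idealOfCofinals (⟨f, hf⟩ : P) DD (Sum.inl a)
    obtain ⟨p, hp, rfl⟩ := hF1
    exact ⟨p.2, F, hF2, hp⟩
  have hR : ∀ b, ∃ a, ∃ F : P, F ∈ I ∧ (a, b) ∈ F.1 := by
    intro b
    obtain ⟨F, hF1, hF2⟩ := Order.cofinal_meets_idealOfCofinals (⟨f, hf⟩ : P) DD (Sum.inr b)
    obtain ⟨p, hp, rfl⟩ := hF1
    exact ⟨p.1, F, hF2, hp⟩
  have huniq : ∀ p q : ℕ × ℕ, (∃ F : P, F ∈ I ∧ p ∈ F.1) → (∃ F : P, F ∈ I ∧ q ∈ F.1) →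
      (p.1 = q.1 ↔ p.2 = q.2) := by
    rintro p q ⟨F, hF, hpF⟩ ⟨F', hF', hqF'⟩
    obtain ⟨F'', hF'', h1, h2⟩ := I.directed F hF F' hF'
    exact F''.2.2.2.1 p (h1 hpF) q (h2 hqF')
  choose u hu using hL
  choose v hv using hR
  let g : Perm ℕ :=
    { toFun := u
      invFun := v
      left_inv := fun a => (huniq (v (u a), u a) (a, u a) (hv (u a)) (hu a)).mpr rfl
      right_inv := fun b => (huniq (v b, u (v b)) (v b, b) (hu (v b)) (hv b)).mp rfl }
  have hg : ∀ p : ℕ × ℕ, (∃ F : P, F ∈ I ∧ p ∈ F.1) → g p.1 = p.2 := by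
    intro p hp
    exact (huniq (p.1, u p.1) p (hu p.1) hp).mp rfl
  refine ⟨g, fun p hp => hg p ⟨_, hfI, hp⟩, hg (0, 0) ⟨_, hfI, hf.1⟩, hg (1, 1) ⟨_, hfI, hf.2.1⟩,
    ?_⟩
  intro B hB hB2
  have hfin : ∀ B : Finset ℕ, ∃ F : P, F ∈ I ∧ ∀ b ∈ B, (b, g b) ∈ F.1 := by
    intro B
    induction B using Finset.induction_on with
    | empty => exact ⟨_, hfI, by simp⟩
    | insert b B _ ih =>
      obtain ⟨F, hF, hFB⟩ := ih
      obtain ⟨F', hF', hb⟩ := hu b
      obtain ⟨F'', hF'', h1, h2⟩ := I.directed F hF F' hF'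
      refine ⟨F'', hF'', ?_⟩
      intro c hc
      rcases Finset.mem_insert.mp hc with rfl | hc
      · exact h2 hb
      · exact h1 (hFB c hc)
  obtain ⟨F, hF, hFB⟩ := hfin B
  have h4 := F.2.2.2.2 (B.image (fun b => (b, g b))) (by
    intro p hp
    obtain ⟨b, hb, rfl⟩ := Finset.mem_image.mp hp
    exact hFB b hb) (hB.image _) (by
    intro p hp
    obtain ⟨b, hb, rfl⟩ := Finset.mem_image.mp hp
    exact hB2 b hb)
  have e1 : (B.image (fun b => (b, g b))).image Prod.snd = B.image g := by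
    rw [Finset.image_image]; rfl
  have e2 : (B.image (fun b => (b, g b))).image Prod.fst = B := by
    rw [Finset.image_image]
    have : (Prod.fst ∘ fun b => (b, g b)) = (id : ℕ → ℕ) := rfl
    rw [this, Finset.image_id]
  have e3 : (B.image (fun b => (b, g b))).card = B.card := by
    apply Finset.card_image_of_injective
    intro b b' h
    exact congrArg Prod.fst h
  rw [e1, e2, e3] at h4
  exact h4

/-! ### The group -/

/-- the oligomorphic group of the example -/
def GG : Subgroup (Perm ℕ) where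
  carrier := {g | (∀ x, 2 ≤ g x ↔ 2 ≤ x) ∧ ∀ n, ∃ e : ℤˣ, ∀ B : Finset ℕ, B.card = n →
    (∀ b ∈ B, 2 ≤ b) → col (B.image g) = e * col B}
  one_mem' := ⟨fun x => Iff.rfl, fun n => ⟨1, fun B _ _ => by simp⟩⟩
  mul_mem' := by
    rintro g h ⟨g1, g2⟩ ⟨h1, h2⟩
    refine ⟨fun x => by rw [Perm.mul_apply, g1, h1], fun n => ?_⟩
    obtain ⟨e, he⟩ := g2 n
    obtain ⟨e', he'⟩ := h2 n
    refine ⟨e * e', fun B hB hB2 => ?_⟩
    have h3 : B.image (g * h) = (B.image h).image g := by rw [Finset.image_image]; rfl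
    rw [h3, he _ (by rw [Finset.card_image_of_injective _ h.injective, hB]) (by
      intro b hb
      obtain ⟨c, hc, rfl⟩ := Finset.mem_image.mp hb
      exact (h1 c).mpr (hB2 c hc)), he' B hB hB2, mul_assoc]
  inv_mem' := by
    rintro g ⟨g1, g2⟩
    have g1' : ∀ x, 2 ≤ g⁻¹ x ↔ 2 ≤ x := by
      intro x
      have h5 : g (g⁻¹ x) = x := g.apply_symm_apply x
      rw [← g1 (g⁻¹ x), h5]
    refine ⟨g1', fun n => ?_⟩
    obtain ⟨e, he⟩ := g2 n
    refine ⟨e, fun B hB hB2 => ?_⟩
    have h3 : (B.image (⇑(g⁻¹ : Perm ℕ))).image (⇑g) = B := by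
      rw [Finset.image_image]
      have : (⇑g ∘ ⇑(g⁻¹ : Perm ℕ)) = id := by funext x; exact g.apply_symm_apply x
      rw [this, Finset.image_id]
    have h4 := he (B.image (⇑(g⁻¹ : Perm ℕ)))
      (by rw [Finset.card_image_of_injective _ (g⁻¹ : Perm ℕ).injective, hB]) (by
      intro b hb
      obtain ⟨c, hc, rfl⟩ := Finset.mem_image.mp hb
      exact (g1' c).mpr (hB2 c hc))
    rw [h3] at h4
    rw [h4, ← mul_assoc, units_mul_self, one_mul]

lemma GG_zero_one {g : Perm ℕ} (hg : g ∈ GG) : (g 0 = 0 ∧ g 1 = 1) ∨ (g 0 = 1 ∧ g 1 = 0) := by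
  have h0 : ¬ 2 ≤ g 0 := by rw [hg.1 0]; omega
  have h1 : ¬ 2 ≤ g 1 := by rw [hg.1 1]; omega
  have h2 : g 0 ≠ g 1 := fun h => by have := g.injective h; omega
  omega

/-- a fixed set of size `n` -/
def B0 (n : ℕ) : Finset ℕ := (Finset.range n).image (fun x => x + 2)

lemma B0_card (n : ℕ) : (B0 n).card = n := by
  unfold B0
  rw [Finset.card_image_of_injective _ (add_left_injective 2), Finset.card_range]

lemma B0_two (n : ℕ) : ∀ b ∈ B0 n, 2 ≤ b := by
  intro b hb
  obtain ⟨c, _, rfl⟩ := Finset.mem_image.mp hb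
  simp

/-- the sign of a permutation in degree `n` -/
noncomputable def eps (n : ℕ) (g : Perm ℕ) : ℤˣ := col ((B0 n).image g) * col (B0 n)

lemma eps_spec {g : Perm ℕ} (hg : g ∈ GG) (n : ℕ) (B : Finset ℕ) (hB : B.card = n)
    (hB2 : ∀ b ∈ B, 2 ≤ b) : col (B.image g) = eps n g * col B := by
  obtain ⟨e, he⟩ := hg.2 n
  rw [he B hB hB2, eps, he _ (B0_card n) (B0_two n), mul_assoc e, units_mul_self, mul_one]

lemma eps_eq {g : Perm ℕ} (n : ℕ) (e : ℤˣ) (B : Finset ℕ) (hB : B.card = n)
    (hB2 : ∀ b ∈ B, 2 ≤ b) (hg : g ∈ GG) (h : col (B.image g) = e * col B) : eps n g = e := by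
  rw [eps_spec hg n B hB hB2] at h
  exact mul_right_cancel h

lemma eps_mul {g h : Perm ℕ} (hg : g ∈ GG) (hh : h ∈ GG) (n : ℕ) :
    eps n (g * h) = eps n g * eps n h := by
  apply eps_eq n _ (B0 n) (B0_card n) (B0_two n) (GG.mul_mem hg hh)
  have h3 : (B0 n).image (g * h) = ((B0 n).image h).image g := by rw [Finset.image_image]; rfl
  rw [h3, eps_spec hg n _ (by rw [Finset.card_image_of_injective _ h.injective, B0_card]) (by
      intro b hb
      obtain ⟨c, hc, rfl⟩ := Finset.mem_image.mp hb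
      exact (hh.1 c).mpr (B0_two n c hc)), eps_spec hh n _ (B0_card n) (B0_two n), mul_assoc]

/-- the central involution -/
def z : Perm ℕ := Equiv.swap 0 1

lemma z_fix {x : ℕ} (hx : 2 ≤ x) : z x = x :=
  Equiv.swap_apply_of_ne_of_ne (by omega) (by omega)

lemma z_image {B : Finset ℕ} (hB : ∀ b ∈ B, 2 ≤ b) : B.image z = B := by
  ext x
  rw [Finset.mem_image]
  constructor
  · rintro ⟨y, hy, rfl⟩
    rw [z_fix (hB y hy)]; exact hy
  · intro hx
    exact ⟨x, hx, z_fix (hB x hx)⟩

lemma z_zero : z 0 = 1 := Equiv.swap_apply_left _ _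

lemma z_one : z 1 = 0 := Equiv.swap_apply_right _ _

lemma z_mem : z ∈ GG := by
  refine ⟨fun x => ?_, fun n => ⟨1, fun B _ hB => by rw [z_image hB, one_mul]⟩⟩
  by_cases hx : 2 ≤ x
  · rw [z_fix hx]
  · have : x = 0 ∨ x = 1 := by omega
    rcases this with rfl | rfl
    · rw [z_zero]; omega
    · rw [z_one]; omega

lemma eps_z (n : ℕ) : eps n z = 1 := by
  apply eps_eq n 1 (B0 n) (B0_card n) (B0_two n) z_mem
  rw [z_image (B0_two n), one_mul]

lemma eps_one (n : ℕ) : eps n 1 = 1 := by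
  apply eps_eq n 1 (B0 n) (B0_card n) (B0_two n) GG.one_mem
  simp

lemma z_comm {g : Perm ℕ} (hg : g ∈ GG) : z * g = g * z := by
  ext x
  rw [Perm.mul_apply, Perm.mul_apply]
  by_cases hx : 2 ≤ x
  · rw [z_fix hx, z_fix ((hg.1 x).mpr hx)]
  · have : x = 0 ∨ x = 1 := by omega
    rcases GG_zero_one hg with ⟨h0, h1⟩ | ⟨h0, h1⟩ <;> rcases this with rfl | rfl <;>
      simp [z_zero, z_one, h0, h1]

lemma z_mul_z : z * z = 1 := Equiv.swap_mul_self _ _

/-- the embedding of `±1` -/
def tau (e : ℤˣ) : Perm ℕ := if e = 1 then 1 else z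

lemma tau_mem (e : ℤˣ) : tau e ∈ GG := by
  unfold tau; split_ifs
  · exact GG.one_mem
  · exact z_mem

lemma tau_mul (e e' : ℤˣ) : tau (e * e') = tau e * tau e' := by
  unfold tau
  rcases Int.units_eq_one_or e with h | h <;> rcases Int.units_eq_one_or e' with h' | h' <;>
    subst h <;> subst h' <;> simp [z_mul_z]

lemma tau_comm {g : Perm ℕ} (hg : g ∈ GG) (e : ℤˣ) : tau e * g = g * tau e := by
  unfold tau; split_ifs
  · simp
  · exact z_comm hg

lemma eps_tau (n : ℕ) (e : ℤˣ) : eps n (tau e) = 1 := by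
  unfold tau; split_ifs
  · exact eps_one n
  · exact eps_z n

/-- the twisting automorphisms -/
noncomputable def alpha (n : ℕ) : MulAut GG where
  toFun g := g * ⟨tau (eps n g), tau_mem _⟩
  invFun g := g * ⟨tau (eps n g), tau_mem _⟩
  left_inv := by
    intro g
    apply Subtype.ext
    simp only [Subgroup.coe_mul]
    rw [eps_mul g.2 (tau_mem _), eps_tau, mul_one, mul_assoc, ← tau_mul, units_mul_self]
    simp [tau]
  right_inv := by
    intro g
    apply Subtype.ext
    simp only [Subgroup.coe_mul]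
    rw [eps_mul g.2 (tau_mem _), eps_tau, mul_one, mul_assoc, ← tau_mul, units_mul_self]
    simp [tau]
  map_mul' := by
    intro g h
    apply Subtype.ext
    simp only [Subgroup.coe_mul]
    rw [eps_mul g.2 h.2, tau_mul]
    calc (g : Perm ℕ) * h * (tau (eps n g) * tau (eps n h))
        = g * (h * tau (eps n g)) * tau (eps n h) := by group
      _ = g * (tau (eps n g) * h) * tau (eps n h) := by rw [tau_comm h.2]
      _ = g * tau (eps n g) * (h * tau (eps n h)) := by group

lemma alpha_coe (n : ℕ) (g : GG) : ((alpha n g : GG) : Perm ℕ) = g * tau (eps n g) := rfl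

lemma alpha_symm (n : ℕ) : (alpha n).symm = alpha n := by
  ext g; rfl

/-! ### Topology -/

lemma isOpen_agree (g : Perm ℕ) (F : Finset ℕ) : IsOpen {h : Perm ℕ | ∀ x ∈ F, h x = g x} := by
  have h1 : {h : Perm ℕ | ∀ x ∈ F, h x = g x} =
      (fun (h : Perm ℕ) (n : ℕ) => h n) ⁻¹' (⋂ x ∈ F, {u : ℕ → ℕ | u x = g x}) := by
    ext h; simp
  rw [h1]
  apply isOpen_induced
  apply isOpen_biInter_finset
  intro x _
  exact (isOpen_discrete ({g x} : Set ℕ)).preimage (continuous_apply (A := fun _ : ℕ => ℕ) x)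

lemma isOpen_of_local {P : Set (Perm ℕ)} (hP : ∀ g ∈ P, ∃ F : Finset ℕ, ∀ h : Perm ℕ,
    (∀ x ∈ F, h x = g x) → h ∈ P) : IsOpen P := by
  rw [isOpen_iff_forall_mem_open]
  intro g hg
  obtain ⟨F, hF⟩ := hP g hg
  exact ⟨_, fun h hh => hF h hh, isOpen_agree g F, fun x _ => rfl⟩

lemma isOpen_of_local' {P : Set GG} (hP : ∀ g ∈ P, ∃ F : Finset ℕ, ∀ h : GG,
    (∀ x ∈ F, (h : Perm ℕ) x = (g : Perm ℕ) x) → h ∈ P) : IsOpen P := by
  rw [isOpen_iff_forall_mem_open]
  intro g hg
  obtain ⟨F, hF⟩ := hP g hg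
  exact ⟨Subtype.val ⁻¹' {h : Perm ℕ | ∀ x ∈ F, h x = (g : Perm ℕ) x}, fun h hh => hF h hh,
    (isOpen_agree g F).preimage continuous_subtype_val, fun x _ => rfl⟩

lemma image_congr' {g h : Perm ℕ} {B F : Finset ℕ} (hB : B ⊆ F) (hgh : ∀ x ∈ F, h x = g x) :
    B.image h = B.image g :=
  Finset.image_congr (fun x hx => hgh x (hB hx))

lemma eps_congr {g h : Perm ℕ} (n : ℕ) {F : Finset ℕ} (hB : B0 n ⊆ F)
    (hgh : ∀ x ∈ F, h x = g x) : eps n h = eps n g := by
  unfold eps
  rw [image_congr' hB hgh]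

lemma alpha_continuous (n : ℕ) : Continuous (alpha n) := by
  apply continuous_induced_rng.mpr
  apply continuous_induced_rng.mpr
  apply continuous_pi
  intro x
  rw [continuous_discrete_rng]
  intro m
  apply isOpen_of_local'
  intro g hg
  refine ⟨B0 n ∪ {x, z x}, fun h hh => ?_⟩
  have he : eps n (h : Perm ℕ) = eps n (g : Perm ℕ) := eps_congr n Finset.subset_union_left hh
  have hx : ∀ e : ℤˣ, (h : Perm ℕ) (tau e x) = (g : Perm ℕ) (tau e x) := by
    intro e
    apply hh
    rw [Finset.mem_union]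
    right
    unfold tau
    split_ifs <;> simp
  change (g : Perm ℕ) (tau (eps n (g : Perm ℕ)) x) = m at hg
  change (h : Perm ℕ) (tau (eps n (h : Perm ℕ)) x) = m
  rw [he, hx, hg]

lemma alpha_mem (n : ℕ) : alpha n ∈ TopAut GG := ⟨alpha_continuous n, by
  rw [alpha_symm]; exact alpha_continuous n⟩

theorem GG_closed : IsClosed (GG : Set (Perm ℕ)) := by
  rw [← isOpen_compl_iff]
  apply isOpen_of_local
  intro g hg
  by_cases h1 : ∀ x, 2 ≤ g x ↔ 2 ≤ x
  · have h2 : ∃ n, ∃ B : Finset ℕ, B.card = n ∧ (∀ b ∈ B, 2 ≤ b) ∧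
        col (B.image g) ≠ eps n g * col B := by
      by_contra hcon
      push Not at hcon
      apply hg
      exact ⟨h1, fun n => ⟨eps n g, fun B hB hB2 => hcon n B hB hB2⟩⟩
    obtain ⟨n, B, hB, hB2, hne⟩ := h2
    refine ⟨B ∪ B0 n, fun h hh hmem => hne ?_⟩
    rw [← image_congr' Finset.subset_union_left hh, ← eps_congr n Finset.subset_union_right hh]
    exact eps_spec hmem n B hB hB2
  · push Not at h1
    obtain ⟨x, hx⟩ := h1
    refine ⟨{x}, fun h hh hmem => ?_⟩
    have h3 := hmem.1 x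
    rw [hh x (Finset.mem_singleton_self x)] at h3
    rcases hx with ⟨ha, hb⟩ | ⟨ha, hb⟩
    · exact absurd (h3.mp ha) (by omega)
    · exact absurd (h3.mpr hb) (by omega)

lemma mem_GG_of {g : Perm ℕ} {ε : ℕ → ℤˣ} (h0 : g 0 = 0) (h1 : g 1 = 1)
    (h : ∀ B : Finset ℕ, B.Nonempty → (∀ b ∈ B, 2 ≤ b) → col (B.image g) = ε B.card * col B) :
    g ∈ GG := by
  refine ⟨fun x => ?_, fun n => ?_⟩
  · have h2 : g x = 0 ↔ x = 0 :=
      ⟨fun h => g.injective (h.trans h0.symm), fun h => by rw [h, h0]⟩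
    have h3 : g x = 1 ↔ x = 1 :=
      ⟨fun h => g.injective (h.trans h1.symm), fun h => by rw [h, h1]⟩
    omega
  · rcases Nat.eq_zero_or_pos n with rfl | hn
    · refine ⟨1, fun B hB _ => ?_⟩
      rw [Finset.card_eq_zero.mp hB]; simp
    · refine ⟨ε n, fun B hB hB2 => ?_⟩
      rw [h B (Finset.card_pos.mp (by omega)) hB2, hB]

/-- the invariant of a tuple -/
noncomputable def inv {n : ℕ} (a : Fin n → ℕ) :
    (Fin n → Fin n → Prop) × (Fin n → Fin 3) × (Finset (Fin n) → ℤˣ) :=
  (fun i j => a i = a j, fun i => ⟨min (a i) 2, by omega⟩, fun J => col (J.image a))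

theorem orbit_of_inv {n : ℕ} (a b : Fin n → ℕ) (hab : inv a = inv b) :
    ∃ g : GG, g • a = b := by
  have h1 : ∀ i j, a i = a j ↔ b i = b j := by
    intro i j
    exact iff_of_eq (congrFun (congrFun (congrArg Prod.fst hab) i) j)
  have h2 : ∀ i, min (a i) 2 = min (b i) 2 := by
    intro i
    have := congrFun (congrArg (fun t => t.2.1) hab) i
    exact congrArg Fin.val this
  have h3 : ∀ J : Finset (Fin n), col (J.image a) = col (J.image b) := by
    intro J
    exact congrFun (congrArg (fun t => t.2.2) hab) J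
  let f : Finset (ℕ × ℕ) := {(0, 0), (1, 1)} ∪ Finset.univ.image (fun i => (a i, b i))
  have hf : ∀ p ∈ f, p = (0, 0) ∨ p = (1, 1) ∨ ∃ i, p = (a i, b i) := by
    intro p hp
    rcases Finset.mem_union.mp hp with hp | hp
    · rcases Finset.mem_insert.mp hp with hp | hp
      · exact Or.inl hp
      · exact Or.inr (Or.inl (Finset.mem_singleton.mp hp))
    · obtain ⟨i, _, rfl⟩ := Finset.mem_image.mp hp
      exact Or.inr (Or.inr ⟨i, rfl⟩)
  have hPI : IsPI (fun _ => 1) f := by
    refine ⟨by simp [f], by simp [f], ?_, ?_⟩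
    · intro p hp q hq
      rcases hf p hp with rfl | rfl | ⟨i, rfl⟩ <;> rcases hf q hq with rfl | rfl | ⟨j, rfl⟩
      · simp
      · simp
      · have := h2 j; simp only; omega
      · simp
      · simp
      · have := h2 j; simp only; omega
      · have := h2 i; simp only; omega
      · have := h2 i; simp only; omega
      · exact h1 i j
    · intro S hS _ hS2
      have hS' : ∀ p ∈ S, ∃ i, p = (a i, b i) := by
        intro p hp
        rcases hf p (hS hp) with rfl | rfl | h
        · have := hS2 _ hp; simp only at this; omega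
        · have := hS2 _ hp; simp only at this; omega
        · exact h
      have e1 : S.image Prod.fst = (Finset.univ.filter (fun i => (a i, b i) ∈ S)).image a := by
        ext y
        simp only [Finset.mem_image, Finset.mem_filter, Finset.mem_univ, true_and]
        constructor
        · rintro ⟨p, hp, rfl⟩
          obtain ⟨i, rfl⟩ := hS' p hp
          exact ⟨i, hp, rfl⟩
        · rintro ⟨i, hi, rfl⟩
          exact ⟨_, hi, rfl⟩
      have e2 : S.image Prod.snd = (Finset.univ.filter (fun i => (a i, b i) ∈ S)).image b := by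
        ext y
        simp only [Finset.mem_image, Finset.mem_filter, Finset.mem_univ, true_and]
        constructor
        · rintro ⟨p, hp, rfl⟩
          obtain ⟨i, rfl⟩ := hS' p hp
          exact ⟨i, hp, rfl⟩
        · rintro ⟨i, hi, rfl⟩
          exact ⟨_, hi, rfl⟩
      rw [e1, e2, h3, one_mul]
  obtain ⟨g, g1, g2, g3, g4⟩ := exists_perm hPI
  refine ⟨⟨g, mem_GG_of (ε := fun _ => 1) g2 g3 g4⟩, ?_⟩
  funext i
  exact g1 (a i, b i) (Finset.mem_union_right _ (Finset.mem_image.mpr ⟨i, Finset.mem_univ _, rfl⟩))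

theorem GG_oligomorphic : IsOligomorphic GG := by
  refine ⟨GG_closed, fun n => ?_⟩
  apply Finite.of_injective (fun q : MulAction.orbitRel.Quotient GG (Fin n → ℕ) =>
    inv (Quotient.out q))
  intro q q' hqq
  obtain ⟨g, hg⟩ := orbit_of_inv _ _ hqq
  rw [← Quotient.out_eq q, ← Quotient.out_eq q']
  apply Quotient.sound
  change MulAction.orbitRel GG (Fin n → ℕ) (Quotient.out q) (Quotient.out q')
  rw [MulAction.orbitRel_apply, MulAction.mem_orbit_iff]
  refine ⟨g⁻¹, ?_⟩
  rw [← hg, inv_smul_smul]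

/-- the open normal subgroup of index two -/
def U : Subgroup GG where
  carrier := {g | (g : Perm ℕ) 0 = 0}
  one_mem' := rfl
  mul_mem' := by
    intro g h hg hh
    change (g : Perm ℕ) ((h : Perm ℕ) 0) = 0
    rw [Set.mem_ofPred_eq] at hg hh
    rw [hh, hg]
  inv_mem' := by
    intro g hg
    rw [Set.mem_ofPred_eq] at hg
    change (g : Perm ℕ)⁻¹ 0 = 0
    rw [Perm.inv_eq_iff_eq, hg]

lemma U_open : IsOpen (U : Set GG) := by
  apply isOpen_of_local'
  intro g hg
  refine ⟨{0}, fun h hh => ?_⟩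
  change (h : Perm ℕ) 0 = 0
  rw [hh 0 (Finset.mem_singleton_self 0)]
  exact hg

lemma U_conj (g u : GG) (hu : u ∈ U) : g * u * g⁻¹ ∈ U := by
  have hu0 : (u : Perm ℕ) 0 = 0 := hu
  have hu1 : (u : Perm ℕ) 1 = 1 := by
    rcases GG_zero_one u.2 with h | h
    · exact h.2
    · omega
  change (g : Perm ℕ) ((u : Perm ℕ) ((g : Perm ℕ)⁻¹ 0)) = 0
  have h3 := GG_zero_one (GG.inv_mem g.2)
  rcases h3 with h | h
  · have h4 : (g : Perm ℕ) ((g : Perm ℕ)⁻¹ 0) = 0 := (g : Perm ℕ).apply_symm_apply 0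
    rw [h.1] at h4 ⊢
    rw [hu0, h4]
  · have h4 : (g : Perm ℕ) ((g : Perm ℕ)⁻¹ 0) = 0 := (g : Perm ℕ).apply_symm_apply 0
    rw [h.1] at h4 ⊢
    rw [hu1, h4]

lemma isOpenCoset_image {C : Set GG} (α : TopAut GG)
    (hC : C = (fun x => (α : MulAut GG) x) '' (U : Set GG)) : IsOpenCoset C := by
  refine ⟨U.map (α : MulAut GG).toMonoidHom, 1, ?_, ?_⟩
  · have h1 : ((U.map (α : MulAut GG).toMonoidHom : Subgroup GG) : Set GG) =
        (α : MulAut GG).symm ⁻¹' (U : Set GG) := by
      ext x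
      constructor
      · rintro ⟨y, hy, rfl⟩
        change (α : MulAut GG).symm ((α : MulAut GG) y) ∈ U
        rw [MulEquiv.symm_apply_apply]; exact hy
      · intro hx
        exact ⟨(α : MulAut GG).symm x, hx, MulEquiv.apply_symm_apply _ _⟩
    rw [h1]
    exact U_open.preimage α.2.2
  · rw [hC]
    ext x
    constructor
    · rintro ⟨y, hy, rfl⟩
      exact ⟨_, ⟨y, hy, rfl⟩, one_mul _⟩
    · rintro ⟨_, ⟨y, hy, rfl⟩, rfl⟩
      exact ⟨y, hy, (one_mul _).symm⟩

theorem not_compact : ¬ CompactSpace (OutAut GG) := by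
  intro hcomp
  let _ : TopologicalSpace (Set GG) := ⊥
  have _ : DiscreteTopology (Set GG) := ⟨rfl⟩
  let ψ : TopAut GG → Set GG := fun α => (fun x => (α : MulAut GG) x) '' (U : Set GG)
  have hψc : Continuous ψ := by
    rw [continuous_discrete_rng]
    intro C
    by_cases hC : IsOpenCoset C
    · apply TopologicalSpace.isOpen_generateFrom_of_mem
      refine ⟨U, C, ⟨U, 1, U_open, ?_⟩, hC, rfl⟩
      ext x; simp
    · have : ψ ⁻¹' {C} = ∅ := by
        ext α
        simp only [Set.mem_preimage, Set.mem_singleton_iff, Set.mem_empty_iff_false, iff_false]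
        intro h
        exact hC (isOpenCoset_image α h.symm)
      rw [this]; exact isOpen_empty
  have hψ : ∀ α β : TopAut GG, QuotientGroup.leftRel (InnAut GG) α β → ψ α = ψ β := by
    intro α β hαβ
    rw [QuotientGroup.leftRel_apply] at hαβ
    obtain ⟨g, hg⟩ := hαβ
    have h1 : ∀ x, (β : MulAut GG) x = (α : MulAut GG) (g * x * g⁻¹) := by
      intro x
      have h2 : (MulAut.conj g : MulAut GG) x = ((α⁻¹ * β : TopAut GG) : MulAut GG) x := by
        rw [hg]; rfl
      rw [MulAut.conj_apply] at h2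
      rw [h2]
      change _ = (α : MulAut GG) ((α : MulAut GG).symm ((β : MulAut GG) x))
      rw [MulEquiv.apply_symm_apply]
    ext y
    constructor
    · rintro ⟨u, hu, rfl⟩
      refine ⟨g⁻¹ * u * g, ?_, ?_⟩
      · have := U_conj g⁻¹ u hu
        rwa [inv_inv] at this
      · simp only
        rw [h1]
        congr 1
        group
    · rintro ⟨u, hu, rfl⟩
      refine ⟨g * u * g⁻¹, U_conj g u hu, ?_⟩
      simp only
      rw [h1]
  let Ψ : OutAut GG → Set GG := fun q => Quotient.liftOn' q ψ hψ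
  have hΨ : Continuous Ψ := hψc.quotient_liftOn' hψ
  have hfin : (Set.range Ψ).Finite := (isCompact_range hΨ).finite_of_discrete
  have hinj : Function.Injective (fun n : ℕ =>
      Ψ (QuotientGroup.mk (⟨alpha (n + 1), alpha_mem (n + 1)⟩ : TopAut GG))) := by
    intro n m hnm
    by_contra hne
    change (fun x => alpha (n + 1) x) '' (U : Set GG) = (fun x => alpha (m + 1) x) '' (U : Set GG)
      at hnm
    have hmem : ∀ (k : ℕ) (h : GG), h ∈ (fun x => alpha k x) '' (U : Set GG) ↔
        alpha k h ∈ U := by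
      intro k h
      have hinvol : ∀ x, alpha k (alpha k x) = x := fun x => (alpha k).left_inv x
      constructor
      · rintro ⟨y, hy, rfl⟩
        simp only
        rw [hinvol]; exact hy
      · intro hy
        exact ⟨alpha k h, hy, hinvol h⟩
    have hPI : IsPI (fun k => if k = n + 1 then -1 else 1) {(0, 0), (1, 1)} := by
      refine ⟨by simp, by simp, ?_, ?_⟩
      · intro p hp q hq
        simp only [Finset.mem_insert, Finset.mem_singleton] at hp hq
        rcases hp with rfl | rfl <;> rcases hq with rfl | rfl <;> simp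
      · intro S hS hSne hS2
        obtain ⟨p, hp⟩ := hSne
        have h1 := hS2 p hp
        have h2 := hS hp
        simp only [Finset.mem_insert, Finset.mem_singleton] at h2
        rcases h2 with rfl | rfl
        · simp only at h1; omega
        · simp only at h1; omega
    obtain ⟨g, -, g0, g1, g2⟩ := exists_perm hPI
    have hgG : g ∈ GG := mem_GG_of (ε := fun k => if k = n + 1 then -1 else 1) g0 g1 g2
    have heps : ∀ k, eps (k + 1) g = if k + 1 = n + 1 then -1 else 1 := by
      intro k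
      apply eps_eq (k + 1) _ (B0 (k + 1)) (B0_card _) (B0_two _) hgG
      rw [g2 _ (Finset.card_pos.mp (by rw [B0_card]; omega)) (B0_two _), B0_card]
    have hn : (⟨g, hgG⟩ : GG) ∉ (fun x => alpha (n + 1) x) '' (U : Set GG) := by
      rw [hmem]
      intro h
      have h1 : g (tau (eps (n + 1) g) 0) = 0 := h
      rw [heps, if_pos rfl] at h1
      simp only [tau] at h1
      rw [if_neg (by decide), z_zero, g1] at h1
      omega
    have hm : (⟨g, hgG⟩ : GG) ∈ (fun x => alpha (m + 1) x) '' (U : Set GG) := by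
      rw [hmem]
      change g (tau (eps (m + 1) g) 0) = 0
      rw [heps, if_neg (by omega)]
      simp only [tau, if_true]
      exact g0
    rw [hnm] at hn
    exact hn hm
  have hinf : (Set.range (fun n : ℕ =>
      Ψ (QuotientGroup.mk (⟨alpha (n + 1), alpha_mem (n + 1)⟩ : TopAut GG)))).Infinite :=
    Set.infinite_range_of_injective hinj
  apply hinf
  apply hfin.subset
  rintro _ ⟨n, rfl⟩
  exact ⟨_, rfl⟩

/-- There is an oligomorphic group whose outer automorphism group is not compact, hence not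
profinite. -/
theorem result : ∃ G : Subgroup (Perm ℕ), IsOligomorphic G ∧ ¬ CompactSpace (OutAut G) :=
  ⟨GG, GG_oligomorphic, not_compact⟩

end Pool.Agent.Results.MP_94c136_al.OutNotCompact
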